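import Pool.Agent.K9h82.LW.Int

/-!
# The order test and the weight test: assembly
-/

set_option autoImplicit false

namespace Pool.Agent.K9h82.LW

open Pool.Agent.TH625.LOG Pool.Agent.N819.LT Pool.Agent.N819.UD Finset

variable {V E : Type}

/-- All subcomplexes of `K(L)` with all the 1-cells are aspherical: the boundary operators
`C₂ → C₁` of their universal coverings are injective. -/
def AllSub (L : LOG V E) : Prop :=
  ∀ (S' : Set E) (c : (S' × (sub L S').G) →₀ ℤ), (sub L S').bdry c = 0 → c = 0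

/-- The data of the order test, with coefficients in the field `k`, for an action `ρ` on the linearly
ordered set `X`. Initial version: `p = ini`, `q = ter`, `x v` the generator of `v`; terminal version:
`p = ter`, `q = ini`, `x v` the inverse generator. -/
def OrderTest (k : Type) [Field k] (L : LOG V E) [Fintype V] [Fintype E] [DecidableEq V]
    (p q : E → V) (x : V → L.G) (X : Type) [LinearOrder X] (ρ : L.G →* (X ≃o X)) : Prop :=
  ∃ (ι : Type) (_ : Fintype ι) (z : ι → E → k) (a : ι → V → k) (v : ι → V) (h : ι → X),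
    SpanCyc p L.lab z ∧ (∀ i e, a i (p e) = a i (L.lab e)) ∧
    (∀ i, cf q L.lab (v i) (z i) (a i) ≠ 0) ∧
    ∀ i j u, cf q L.lab u (z j) (a i) ≠ 0 → (j ≠ i ∨ u ≠ v i) →
      h i < ρ (x (v i) * (x u)⁻¹) (h j)

/-- A spanning decomposition. -/
def Dec (p q lab : E → V) (S : Set E) : Prop := Mix p q lab S ∧ Spans p lab S

/-- Exactly one spanning decomposition has the smallest weight. -/
def UniqueMin {Λ : Type} [AddCommGroup Λ] [LinearOrder Λ] [Fintype E] (p q lab : E → V)
    (s : V → Λ) : Prop :=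
  ∃ S, Dec p q lab S ∧ ∀ S', Dec p q lab S' → S' ≠ S → wt lab s S < wt lab s S'

/-- The weight of some spanning decomposition `S` does not lie in the convex hull of the weights of
the other ones: it is a vertex of the polytope spanned by all weights, and no other spanning
decomposition has the same weight. -/
def Vertex {M : Type} [AddCommGroup M] [Module ℝ M] [Fintype E] (p q lab : E → V)
    (s : V → M) : Prop :=
  ∃ S, Dec p q lab S ∧ wt lab s S ∉ convexHull ℝ (wt lab s '' {S' | Dec p q lab S' ∧ S' ≠ S})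

variable [Fintype V] [Fintype E] [DecidableEq V] [DecidableEq E]

omit [DecidableEq E] in
theorem order_ini (k : Type) [Field k] (L : LOG V E) (X : Type) [LinearOrder X]
    (ρ : L.G →* (X ≃o X)) (h : OrderTest k L L.ini L.ter L.gen X ρ) : AllSub L := by
  intro S' c hc
  refine red_ini k L S' ?_ c hc
  intro y hfin hy
  obtain ⟨ι, _, z, a, v, h, hz, ha, hd, hh⟩ := h
  refine core_field (ρ.comp (subHom L S')) (sub L S').gen (chi (sub L S')) (chi_gen _)
    L.ini L.ter L.lab z a v h hz ha hd ?_ y hfin hy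
  intro i j u h1 h2
  have h3 := hh i j u h1 h2
  rw [map_mul] at h3
  rw [MonoidHom.comp_apply, MonoidHom.comp_apply, map_inv, subHom_gen, subHom_gen]
  exact h3

omit [DecidableEq E] in
theorem order_ter (k : Type) [Field k] (L : LOG V E) (X : Type) [LinearOrder X]
    (ρ : L.G →* (X ≃o X)) (h : OrderTest k L L.ter L.ini (fun v => (L.gen v)⁻¹) X ρ) :
    AllSub L := by
  intro S' c hc
  refine red_ter k L S' ?_ c hc
  intro y hfin hy
  obtain ⟨ι, _, z, a, v, h, hz, ha, hd, hh⟩ := h
  refine core_field (ρ.comp (subHom L S')) (fun v => ((sub L S').gen v)⁻¹) (chi (sub L S'))⁻¹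
    (chi_rev _) L.ter L.ini L.lab z a v h hz ha hd ?_ y hfin hy
  intro i j u h1 h2
  have h3 := hh i j u h1 h2
  rw [map_mul, inv_inv] at h3
  rw [MonoidHom.comp_apply, MonoidHom.comp_apply, inv_inv, map_inv, subHom_gen, subHom_gen]
  exact h3

theorem weight (L : LOG V E) (hcard : Fintype.card V = Fintype.card E + 1) (Λ : Type)
    [AddCommGroup Λ] [LinearOrder Λ] [IsOrderedAddMonoid Λ] (F : ℤ → V → Λ) (hF : IsCol L F)
    (h : UniqueMin L.ini L.ter L.lab (F 0) ∨ UniqueMin L.ter L.ini L.lab (F 0)) : AllSub L := by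
  rcases h with ⟨S, h1, h2⟩ | ⟨S, h1, h2⟩
  · exact fun S' c hc => weight_ini L hcard F hF S h1.1 h1.2
      (fun S'' h3 h4 h5 => h2 S'' ⟨h3, h4⟩ h5) S' c hc
  · exact fun S' c hc => weight_ter L hcard F hF S h1.1 h1.2
      (fun S'' h3 h4 h5 => h2 S'' ⟨h3, h4⟩ h5) S' c hc

omit [Fintype V] [DecidableEq V] [DecidableEq E] in
theorem wt_map {M N : Type} [AddCommGroup M] [AddCommGroup N] (f : M →+ N) (lab : E → V)
    (s : V → M) (S : Set E) : wt lab (fun v => f (s v)) S = f (wt lab s S) := by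
  classical
  unfold wt
  rw [map_sum]
  refine Finset.sum_congr rfl fun e _ => ?_
  rw [Set.indicator_apply, Set.indicator_apply]
  split_ifs
  · rfl
  · exact (map_zero f).symm

omit [Fintype V] [DecidableEq V] [DecidableEq E] in
theorem vertex_min {M : Type} [NormedAddCommGroup M] [NormedSpace ℝ M] (p q lab : E → V)
    (s : V → M) (h : Vertex p q lab s) :
    ∃ f : M →L[ℝ] ℝ, UniqueMin p q lab (fun v => f (s v)) := by
  obtain ⟨S, h1, h2⟩ := h
  have hfin : (wt lab s '' {S' | Dec p q lab S' ∧ S' ≠ S}).Finite := Set.toFinite _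
  obtain ⟨f, u, h3, h4⟩ := geometric_hahn_banach_point_closed (convex_convexHull ℝ _)
    (hfin.isClosed_convexHull ℝ) h2
  refine ⟨f, S, h1, fun S' h5 h6 => ?_⟩
  have h7 := h4 (wt lab s S') (subset_convexHull ℝ _ ⟨S', ⟨h5, h6⟩, rfl⟩)
  have h8 := wt_map (f : M →+ ℝ) lab s
  have e1 : wt lab (fun v => f (s v)) S = f (wt lab s S) := h8 S
  have e2 : wt lab (fun v => f (s v)) S' = f (wt lab s S') := h8 S'
  rw [e1, e2]
  exact h3.trans h7

theorem hull (L : LOG V E) (hcard : Fintype.card V = Fintype.card E + 1) (M : Type)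
    [NormedAddCommGroup M] [NormedSpace ℝ M] (τ : M ≃ₗ[ℝ] M) (s : V → M)
    (hs : ∀ e, τ (s (L.ini e)) + s (L.lab e) = τ (s (L.lab e)) + s (L.ter e))
    (h : Vertex L.ini L.ter L.lab s ∨ Vertex L.ter L.ini L.lab s) : AllSub L := by
  have key : ∀ f : M →L[ℝ] ℝ, IsCol L (fun l v => f ((τ ^ l) (s v))) := by
    intro f l e
    have h1 := congrArg (fun m => f ((τ ^ l) m)) (hs e)
    simp only [map_add] at h1
    have h2 : ∀ m, (τ ^ (l + 1)) m = (τ ^ l) (τ m) := by
      intro m
      rw [zpow_add, zpow_one]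
      rfl
    beta_reduce
    rw [h2, h2]
    exact h1
  have h0 : ∀ f : M →L[ℝ] ℝ, (fun v => f ((τ ^ (0 : ℤ)) (s v))) = fun v => f (s v) := by
    intro f
    funext v
    rw [zpow_zero]
    rfl
  rcases h with h | h
  · obtain ⟨f, hf⟩ := vertex_min _ _ _ _ h
    refine weight L hcard ℝ _ (key f) (Or.inl ?_)
    beta_reduce
    rw [h0]
    exact hf
  · obtain ⟨f, hf⟩ := vertex_min _ _ _ _ h
    refine weight L hcard ℝ _ (key f) (Or.inr ?_)
    beta_reduce
    rw [h0]
    exact hf

end Pool.Agent.K9h82.LW
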