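import Mathlib

/-!
# A shortest closed walk with nonnegative gain
-/

set_option autoImplicit false

namespace Pool.Agent.K9h82.LW

open Finset

variable {E Λ : Type} [AddCommGroup Λ]

/-- A closed walk `f 0, b 0, f 1, b 1, …` with the period `n`. -/
structure IsWalk (P Q : E → E → Prop) (A B : Set E) (n : ℕ) (f b : ℕ → E) : Prop where
  pos : 0 < n
  hf : ∀ t, f t ∈ A
  hb : ∀ t, b t ∈ B
  hP : ∀ t, P (f (t + 1)) (b t)
  hQ : ∀ t, Q (b t) (f t)
  pf : ∀ t, f (t + n) = f t
  pb : ∀ t, b (t + n) = b t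

/-- the gain of the first `m` steps -/
def Gn (φ : E → Λ) (f b : ℕ → E) (m : ℕ) : Λ := ∑ t ∈ range m, (φ (f t) - φ (b t))

theorem Gn_zero (φ : E → Λ) (f b : ℕ → E) : Gn φ f b 0 = 0 := by
  unfold Gn
  rw [range_zero, sum_empty]

theorem Gn_succ (φ : E → Λ) (f b : ℕ → E) (m : ℕ) :
    Gn φ f b (m + 1) = Gn φ f b m + (φ (f m) - φ (b m)) := by
  unfold Gn
  rw [sum_range_succ]

theorem Gn_add (φ : E → Λ) (f b : ℕ → E) (j m : ℕ) :
    Gn φ f b (j + m) = Gn φ f b j + ∑ t ∈ range m, (φ (f (j + t)) - φ (b (j + t))) := by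
  induction m with
  | zero => rw [add_zero, range_zero, sum_empty, add_zero]
  | succ m ih => rw [← add_assoc, Gn_succ, ih, sum_range_succ, add_assoc]

theorem Gn_per {P Q : E → E → Prop} {A B : Set E} {n : ℕ} {f b : ℕ → E} (h : IsWalk P Q A B n f b)
    (φ : E → Λ) (m : ℕ) : Gn φ f b (m + n) = Gn φ f b m + Gn φ f b n := by
  have h1 := Gn_add φ f b n m
  have h2 : ∑ t ∈ range m, (φ (f (n + t)) - φ (b (n + t))) = Gn φ f b m := by
    refine sum_congr rfl fun t _ => ?_
    rw [add_comm n t, h.pf, h.pb]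
  rw [add_comm m n, h1, h2, add_comm]

/-- the shortcut along a chord `P` -/
theorem short_P {P Q : E → E → Prop} {A B : Set E} {n : ℕ} {f b : ℕ → E} (h : IsWalk P Q A B n f b)
    (j m : ℕ) (hP : P (f j) (b (j + m))) :
    IsWalk P Q A B (m + 1) (fun t => f (j + t % (m + 1))) (fun t => b (j + t % (m + 1))) := by
  refine ⟨by omega, fun t => h.hf _, fun t => h.hb _, fun t => ?_, fun t => h.hQ _, fun t => ?_,
    fun t => ?_⟩
  · by_cases ht : t % (m + 1) = m
    · have h1 : (t + 1) % (m + 1) = 0 := by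
        rw [Nat.add_mod, ht]
        rcases Nat.eq_zero_or_pos m with h0 | h0
        · subst h0; simp
        · rw [Nat.mod_eq_of_lt (by omega : 1 < m + 1)]
          simp
      rw [h1, ht, add_zero]
      exact hP
    · have h0 : t % (m + 1) < m + 1 := Nat.mod_lt _ (by omega)
      have h1 : (t + 1) % (m + 1) = t % (m + 1) + 1 := by
        rw [Nat.add_mod, Nat.mod_eq_of_lt (by omega : 1 < m + 1), Nat.mod_eq_of_lt (by omega)]
      rw [h1, ← add_assoc]
      exact h.hP _
  · simp
  · simp

/-- the shortcut along a chord `Q` -/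
theorem short_Q {P Q : E → E → Prop} {A B : Set E} {n : ℕ} {f b : ℕ → E} (h : IsWalk P Q A B n f b)
    (i m : ℕ) (hQ : Q (b i) (f (i + 1 + m))) :
    IsWalk P Q A B (m + 1) (fun t => f (i + 1 + t % (m + 1)))
      (fun t => if t % (m + 1) = m then b i else b (i + 1 + t % (m + 1))) := by
  refine ⟨by omega, fun t => h.hf _, fun t => ?_, fun t => ?_, fun t => ?_, fun t => ?_,
    fun t => ?_⟩
  · split_ifs
    · exact h.hb _
    · exact h.hb _
  · by_cases ht : t % (m + 1) = m
    · have h1 : (t + 1) % (m + 1) = 0 := by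
        rw [Nat.add_mod, ht]
        rcases Nat.eq_zero_or_pos m with h0 | h0
        · subst h0; simp
        · rw [Nat.mod_eq_of_lt (by omega : 1 < m + 1)]
          simp
      rw [h1, if_pos ht, add_zero]
      exact h.hP _
    · have h0 : t % (m + 1) < m + 1 := Nat.mod_lt _ (by omega)
      have h1 : (t + 1) % (m + 1) = t % (m + 1) + 1 := by
        rw [Nat.add_mod, Nat.mod_eq_of_lt (by omega : 1 < m + 1), Nat.mod_eq_of_lt (by omega)]
      rw [h1, if_neg ht, ← add_assoc]
      exact h.hP _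
  · by_cases ht : t % (m + 1) = m
    · rw [if_pos ht, ht]
      exact hQ
    · rw [if_neg ht]
      exact h.hQ _
  · simp
  · simp

theorem gain_short_P (φ : E → Λ) (f b : ℕ → E) (j m : ℕ) :
    Gn φ (fun t => f (j + t % (m + 1))) (fun t => b (j + t % (m + 1))) (m + 1) =
      Gn φ f b (j + (m + 1)) - Gn φ f b j := by
  rw [Gn_add φ f b j (m + 1), add_sub_cancel_left]
  unfold Gn
  refine sum_congr rfl fun t ht => ?_
  beta_reduce
  rw [Nat.mod_eq_of_lt (mem_range.1 ht)]

theorem gain_short_Q (φ : E → Λ) (f b : ℕ → E) (i m : ℕ) :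
    Gn φ (fun t => f (i + 1 + t % (m + 1)))
        (fun t => if t % (m + 1) = m then b i else b (i + 1 + t % (m + 1))) (m + 1) =
      (Gn φ f b (i + 1 + m) + φ (f (i + 1 + m))) - (Gn φ f b i + φ (f i)) := by
  rw [Gn_succ]
  have h1 : Gn φ (fun t => f (i + 1 + t % (m + 1)))
        (fun t => if t % (m + 1) = m then b i else b (i + 1 + t % (m + 1))) m =
      Gn φ f b (i + 1 + m) - Gn φ f b (i + 1) := by
    rw [Gn_add φ f b (i + 1) m, add_sub_cancel_left]
    unfold Gn
    refine sum_congr rfl fun t ht => ?_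
    have h2 := mem_range.1 ht
    beta_reduce
    rw [Nat.mod_eq_of_lt (by omega), if_neg (by omega)]
  rw [h1, Gn_succ, Nat.mod_eq_of_lt (by omega), if_pos rfl]
  abel

/-- **The cycle lemma.** -/
theorem exists_short [LinearOrder Λ] [IsOrderedAddMonoid Λ] {P Q : E → E → Prop} {A B : Set E} (φ : E → Λ)
    (hex : ∃ n f b, IsWalk P Q A B n f b ∧ 0 ≤ Gn φ f b n) :
    ∃ (n : ℕ) (f b : ℕ → E), IsWalk P Q A B n f b ∧ 0 ≤ Gn φ f b n ∧
      (∀ t t', t < n → t' < n → t ≠ t' → f t ≠ f t') ∧
      (∀ t t', t < n → t' < n → t ≠ t' → b t ≠ b t') ∧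
      (∀ t t', t < n → t' < n → t ≠ t' → P (f (t + 1)) (b t') →
        Gn φ f b (t' + 1) < Gn φ f b (t + 1)) ∧
      (∀ t t', t < n → t' < n → t ≠ t' → Q (b t) (f t') →
        Gn φ f b t' + φ (f t') < Gn φ f b t + φ (f t)) := by
  classical
  have hex' : ∃ n : ℕ, ∃ f b, IsWalk P Q A B n f b ∧ 0 ≤ Gn φ f b n := hex
  obtain ⟨f, b, hw, hG⟩ := Nat.find_spec hex'
  have hmin : ∀ m f' b', IsWalk P Q A B m f' b' → 0 ≤ Gn φ f' b' m → Nat.find hex' ≤ m :=
    fun m f' b' h1 h2 => Nat.find_min' hex' ⟨f', b', h1, h2⟩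
  set n := Nat.find hex' with hn
  -- the two kinds of chords
  have cP : ∀ j m, m + 1 < n → P (f j) (b (j + m)) → Gn φ f b (j + (m + 1)) < Gn φ f b j := by
    intro j m hm hP
    by_contra hcon
    push Not at hcon
    have h1 := hmin _ _ _ (short_P hw j m hP) (by
      rw [gain_short_P]
      exact sub_nonneg.2 hcon)
    omega
  have cQ : ∀ i m, m + 1 < n → Q (b i) (f (i + 1 + m)) →
      Gn φ f b (i + 1 + m) + φ (f (i + 1 + m)) < Gn φ f b i + φ (f i) := by
    intro i m hm hQ
    by_contra hcon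
    push Not at hcon
    have h1 := hmin _ _ _ (short_Q hw i m hQ) (by
      rw [gain_short_Q]
      exact sub_nonneg.2 hcon)
    omega
  have per : ∀ m, Gn φ f b m ≤ Gn φ f b (m + n) := by
    intro m
    rw [Gn_per hw]
    exact le_add_of_nonneg_right hG
  have hP' : ∀ t t', t < n → t' < n → t ≠ t' → P (f (t + 1)) (b t') →
      Gn φ f b (t' + 1) < Gn φ f b (t + 1) := by
    intro t t' ht ht' hne hP
    rcases lt_or_gt_of_ne hne with h1 | h1
    · have h2 := cP (t + 1) (t' - (t + 1)) (by omega) (by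
        have : t + 1 + (t' - (t + 1)) = t' := by omega
        rw [this]
        exact hP)
      have : t + 1 + (t' - (t + 1) + 1) = t' + 1 := by omega
      rwa [this] at h2
    · have h2 := cP (t + 1) (t' + n - (t + 1)) (by omega) (by
        have : t + 1 + (t' + n - (t + 1)) = t' + n := by omega
        rw [this, hw.pb]
        exact hP)
      have : t + 1 + (t' + n - (t + 1) + 1) = t' + 1 + n := by omega
      rw [this] at h2
      exact lt_of_le_of_lt (per _) h2
  have hQ' : ∀ t t', t < n → t' < n → t ≠ t' → Q (b t) (f t') →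
      Gn φ f b t' + φ (f t') < Gn φ f b t + φ (f t) := by
    intro t t' ht ht' hne hQ
    rcases lt_or_gt_of_ne hne with h1 | h1
    · have h2 := cQ t (t' - (t + 1)) (by omega) (by
        have : t + 1 + (t' - (t + 1)) = t' := by omega
        rw [this]
        exact hQ)
      have : t + 1 + (t' - (t + 1)) = t' := by omega
      rwa [this] at h2
    · have h2 := cQ t (t' + n - (t + 1)) (by omega) (by
        have : t + 1 + (t' + n - (t + 1)) = t' + n := by omega
        rw [this, hw.pf]
        exact hQ)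
      have : t + 1 + (t' + n - (t + 1)) = t' + n := by omega
      rw [this, hw.pf] at h2
      refine lt_of_le_of_lt ?_ h2
      gcongr
      exact per _
  refine ⟨n, f, b, hw, hG, ?_, ?_, hP', hQ'⟩
  · -- distinct `f`
    have aux : ∀ t t', t < t' → t' < n → f t ≠ f t' := by
      intro t t' h1 h2 heq
      have h3 := cP t (t' - t - 1) (by omega) (by
        have : t + (t' - t - 1) = t' - 1 := by omega
        rw [this, heq]
        have h4 := hw.hP (t' - 1)
        have : t' - 1 + 1 = t' := by omega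
        rwa [this] at h4)
      have e3 : t + (t' - t - 1 + 1) = t' := by omega
      rw [e3] at h3
      have h4 := cP t' (t + n - t' - 1) (by omega) (by
        have : t' + (t + n - t' - 1) = t + n - 1 := by omega
        rw [this, ← heq]
        have h4 := hw.hP (t + n - 1)
        have : t + n - 1 + 1 = t + n := by omega
        rwa [this, hw.pf] at h4)
      have e4 : t' + (t + n - t' - 1 + 1) = t + n := by omega
      rw [e4] at h4
      exact absurd (lt_of_le_of_lt (per t) (h4.trans h3)) (lt_irrefl _)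
    intro t t' ht ht' hne
    rcases lt_or_gt_of_ne hne with h1 | h1
    · exact aux t t' h1 ht'
    · exact (aux t' t h1 ht).symm
  · -- distinct `b`
    intro t t' ht ht' hne heq
    have h1 := hQ' t t' ht ht' hne (by rw [heq]; exact hw.hQ t')
    have h2 := hQ' t' t ht' ht hne.symm (by rw [← heq]; exact hw.hQ t)
    exact absurd (h1.trans h2) (lt_irrefl _)

end Pool.Agent.K9h82.LW
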