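import Pool.Agent.N281.UD_EXCH

/-!
# Exchange along a triangular alternating cycle
-/

set_option autoImplicit false

namespace Pool.Agent.K9h82.LW

open Pool.Agent.N819.UD Pool.Agent.N819.LT
open Pool.Agent.N281.UDEXCH (z_self z_eq z_mul z_iff)

open Classical in
/-- exchange along a triangular alternating cycle -/
theorem exch {V E ι Λ : Type} [Fintype V] [Fintype E] [DecidableEq V] [DecidableEq E] [Finite ι]
    [LinearOrder Λ] (p q lab : E → V) (S : Set E) (a : E → V → ZMod 2) (f f' b : ι → E)
    (u1 u2 : ι → Λ) (hsp : Spans p lab S)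
    (hdual : ∀ f e, a f (mp p q S e) + a f (lab e) = if e = f then 1 else 0)
    (hexp : ∀ (v : V → ZMod 2) (x y : V),
      v x + v y = ∑ f, (v (mp p q S f) + v (lab f)) * (a f x + a f y))
    (hWS : ∀ t, f t ∉ S) (hβ : ∀ t, b t ∈ S) (hσ : ∀ t, ∃ t', f' t = f t')
    (hP : ∀ t, a (b t) (p (f' t)) + a (b t) (lab (f' t)) ≠ 0)
    (hQ : ∀ t, a (f t) (q (b t)) + a (f t) (lab (b t)) ≠ 0)
    (hP' : ∀ t t', t ≠ t' → a (b t') (p (f' t)) + a (b t') (lab (f' t)) ≠ 0 → u1 t' < u1 t)
    (hQ' : ∀ t t', t ≠ t' → a (f t') (q (b t)) + a (f t') (lab (b t)) ≠ 0 → u2 t' < u2 t) :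
    Mix p q lab {e | (e ∈ S ∧ ∀ t, e ≠ b t) ∨ ∃ t, e = f t} ∧
      Spans p lab {e | (e ∈ S ∧ ∀ t, e ≠ b t) ∨ ∃ t, e = f t} := by
  obtain ⟨S', hS'⟩ : ∃ S' : Set E, S' = {e | (e ∈ S ∧ ∀ t, e ≠ b t) ∨ ∃ t, e = f t} := ⟨_, rfl⟩
  rw [← hS']
  replace hS' : ∀ e, e ∈ S' ↔ ((e ∈ S ∧ ∀ t, e ≠ b t) ∨ ∃ t, e = f t) := by
    intro e
    rw [hS']
    rfl
  have mpS : ∀ e, e ∈ S → mp p q S e = p e := fun e he => if_pos he
  have mpN : ∀ e, e ∉ S → mp p q S e = q e := fun e he => if_neg he
  -- the key step
  have key : ∀ v : V → ZMod 2, (∀ e ∈ S', v (p e) = v (lab e)) →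
      ∀ b ∈ S, v (mp p q S b) + v (lab b) = 0 := by
    intro v hv
    have hin : ∀ b1 ∈ S, (∀ t, b1 ≠ b t) → v (mp p q S b1) + v (lab b1) = 0 := by
      intro b1 hb h
      rw [mpS b1 hb, hv b1 ((hS' b1).2 (Or.inl ⟨hb, h⟩))]
      exact z_self _
    have hin2 : ∀ t, v (mp p q S (b t)) + v (lab (b t)) = 0 := by
      by_contra hcon
      push Not at hcon
      obtain ⟨t, ht, hmin⟩ := Set.exists_min_image {t | v (mp p q S (b t)) + v (lab (b t)) ≠ 0} u1
        (Set.toFinite _) hcon
      have h1 : v (p (f' t)) + v (lab (f' t)) = 0 := by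
        obtain ⟨t', ht'⟩ := hσ t
        rw [hv (f' t) ((hS' (f' t)).2 (Or.inr ⟨t', ht'⟩))]
        exact z_self _
      rw [hexp v (p (f' t)) (lab (f' t)), Finset.sum_eq_single (b t)] at h1
      · exact ht (z_mul _ _ h1 (hP t))
      · intro g _ hg
        by_cases hgS : g ∈ S
        · by_cases hgW : ∃ t', g = b t'
          · obtain ⟨t', rfl⟩ := hgW
            by_cases h2 : a (b t') (p (f' t)) + a (b t') (lab (f' t)) = 0
            · rw [h2, mul_zero]
            · have hne : t ≠ t' := by
                rintro rfl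
                exact hg rfl
              have h3 := hP' t t' hne h2
              have h4 : v (mp p q S (b t')) + v (lab (b t')) = 0 := by
                by_contra h5
                exact absurd (hmin t' h5) (not_le.2 h3)
              rw [h4, zero_mul]
          · rw [hin g hgS (fun t' h3 => hgW ⟨t', h3⟩), zero_mul]
        · have h2 : a g (p (f' t)) + a g (lab (f' t)) = 0 := by
            apply z_iff
            refine hsp (fun x => a g x = 1) ?_ (f' t)
            intro e he
            have h3 := hdual g e
            have hne : ¬ e = g := by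
              intro h
              rw [h] at he
              exact hgS he
            rw [mpS e he, if_neg hne] at h3
            have h4 := z_eq _ _ h3
            constructor
            · intro h5
              rw [← h4]
              exact h5
            · intro h5
              change a g (p e) = 1
              rw [h4]
              exact h5
          rw [h2, mul_zero]
      · intro h
        exact absurd (Finset.mem_univ _) h
    intro b1 hb
    by_cases hbW : ∃ t, b1 = b t
    · obtain ⟨t, rfl⟩ := hbW
      exact hin2 t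
    · exact hin b1 hb (fun t h => hbW ⟨t, h⟩)
  refine ⟨?_, ?_⟩
  · -- connectedness
    have mpS' : ∀ e, e ∈ S' → mp p q S' e = p e := fun e he => if_pos he
    have mpN' : ∀ e, e ∉ S' → mp p q S' e = q e := fun e he => if_neg he
    intro x0 y0
    let u : V → ZMod 2 := fun x => if Relation.ReflTransGen (Joined (mp p q S') lab) x0 x then 1 else 0
    have hu : ∀ e, u (mp p q S' e) = u (lab e) := by
      intro e
      have h3 : Relation.ReflTransGen (Joined (mp p q S') lab) x0 (mp p q S' e) ↔
          Relation.ReflTransGen (Joined (mp p q S') lab) x0 (lab e) :=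
        ⟨fun h => h.tail ⟨e, Or.inl ⟨rfl, rfl⟩⟩, fun h => h.tail ⟨e, Or.inr ⟨rfl, rfl⟩⟩⟩
      change (if _ then (1 : ZMod 2) else 0) = if _ then (1 : ZMod 2) else 0
      by_cases h4 : Relation.ReflTransGen (Joined (mp p q S') lab) x0 (mp p q S' e)
      · rw [if_pos h4, if_pos (h3.1 h4)]
      · rw [if_neg h4, if_neg (fun h => h4 (h3.2 h))]
    have hin : ∀ b ∈ S, u (mp p q S b) + u (lab b) = 0 := by
      apply key u
      intro e he
      rw [← mpS' e he]
      exact hu e
    have hout : ∀ g, g ∉ S → (∀ t, g ≠ f t) → u (mp p q S g) + u (lab g) = 0 := by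
      intro g hg hgW
      have h1 : g ∉ S' := by
        intro h
        rcases (hS' g).1 h with h2 | ⟨t, h2⟩
        · exact hg h2.1
        · exact hgW t h2
      have h2 := hu g
      rw [mpN' g h1] at h2
      rw [mpN g hg, h2]
      exact z_self _
    have hW : ∀ t, u (mp p q S (f t)) + u (lab (f t)) = 0 := by
      by_contra hcon
      push Not at hcon
      obtain ⟨t, ht, hmin⟩ := Set.exists_min_image {t | u (mp p q S (f t)) + u (lab (f t)) ≠ 0} u2
        (Set.toFinite _) hcon
      have hb : b t ∉ S' := by
        intro h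
        rcases (hS' _).1 h with h2 | ⟨t', h2⟩
        · exact h2.2 t rfl
        · exact hWS t' (h2 ▸ hβ t)
      have h1 : u (q (b t)) + u (lab (b t)) = 0 := by
        rw [← mpN' _ hb, hu]
        exact z_self _
      rw [hexp u (q (b t)) (lab (b t)), Finset.sum_eq_single (f t)] at h1
      · exact ht (z_mul _ _ h1 (hQ t))
      · intro g _ hg
        by_cases hgS : g ∈ S
        · rw [hin g hgS, zero_mul]
        · by_cases hgW : ∃ t', g = f t'
          · obtain ⟨t', rfl⟩ := hgW
            by_cases h2 : a (f t') (q (b t)) + a (f t') (lab (b t)) = 0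
            · rw [h2, mul_zero]
            · have hne : t ≠ t' := by
                rintro rfl
                exact hg rfl
              have h3 := hQ' t t' hne h2
              have h4 : u (mp p q S (f t')) + u (lab (f t')) = 0 := by
                by_contra h5
                exact absurd (hmin t' h5) (not_le.2 h3)
              rw [h4, zero_mul]
          · rw [hout g hgS (fun t' h3 => hgW ⟨t', h3⟩), zero_mul]
      · intro h
        exact absurd (Finset.mem_univ _) h
    have hall : ∀ g, u (mp p q S g) + u (lab g) = 0 := by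
      intro g
      by_cases hg : g ∈ S
      · exact hin g hg
      · by_cases hgW : ∃ t, g = f t
        · obtain ⟨t, rfl⟩ := hgW
          exact hW t
        · exact hout g hg (fun t h => hgW ⟨t, h⟩)
    have h1 : u x0 + u y0 = 0 := by
      rw [hexp u x0 y0]
      refine Finset.sum_eq_zero fun f _ => ?_
      rw [hall f, zero_mul]
    have h2 : u x0 = u y0 := z_eq _ _ h1
    have h3 : u x0 = 1 := if_pos Relation.ReflTransGen.refl
    by_contra h4
    have h5 : u y0 = 0 := if_neg h4
    rw [h3, h5] at h2
    exact one_ne_zero h2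
  · -- spanning
    intro P hPP
    apply hsp P
    intro b hb
    let v : V → ZMod 2 := fun x => if P x then 1 else 0
    have hv : ∀ e ∈ S', v (p e) = v (lab e) := by
      intro e he
      have h1 := hPP e he
      change (if _ then (1 : ZMod 2) else 0) = if _ then (1 : ZMod 2) else 0
      by_cases h4 : P (p e)
      · rw [if_pos h4, if_pos (h1.1 h4)]
      · rw [if_neg h4, if_neg (fun h => h4 (h1.2 h))]
    have h1 := key v hv b hb
    rw [mpS b hb] at h1
    have h2 : v (p b) = v (lab b) := z_eq _ _ h1
    constructor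
    · intro h3
      by_contra h4
      have h5 : v (p b) = 1 := if_pos h3
      have h6 : v (lab b) = 0 := if_neg h4
      rw [h5, h6] at h2
      exact one_ne_zero h2
    · intro h3
      by_contra h4
      have h5 : v (lab b) = 1 := if_pos h3
      have h6 : v (p b) = 0 := if_neg h4
      rw [h5, h6] at h2
      exact zero_ne_one h2

end Pool.Agent.K9h82.LW
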