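import Pool.Agent.K9h82.LW.Walk
import Pool.Agent.K9h82.LW.Cycle
import Pool.Agent.K9h82.LW.Exch

/-!
# The two tests for a spanning decomposition
-/

set_option autoImplicit false

namespace Pool.Agent.K9h82.LW

open Pool.Agent.TH625.LOG Pool.Agent.N819.LT Pool.Agent.N819.UD Finset

/-- The sum of `s (lab e)` over the edges `e` outside `S`. -/
noncomputable def wt {V E Λ : Type} [Fintype E] [AddCommGroup Λ] (lab : E → V) (s : V → Λ)
    (S : Set E) : Λ :=
  ∑ e, Sᶜ.indicator (fun e => s (lab e)) e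

/-- the order test -/
theorem core_order {V E G X : Type} [Fintype V] [Fintype E] [DecidableEq V] [DecidableEq E] [Group G]
    [LinearOrder X] (ρ : G →* (X ≃o X)) (x : V → G) (χ : G →* Multiplicative ℤ)
    (hχ : ∀ v, χ (x v) = Multiplicative.ofAdd 1) (p q lab : E → V)
    (hcard : Fintype.card V = Fintype.card E + 1) (S : Set E) (hM : Mix p q lab S)
    (hS : Spans p lab S) (h : E → X)
    (hh : ∀ e f b, e ∉ S → f ∉ S → b ∈ S → Cut p q lab S b (p e) (lab e) →
      Cut p q lab S f (q b) (lab b) → h f < ρ (x (lab f)) (ρ ((x (lab b))⁻¹) (h e)))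
    (y : E → G → ZMod 2) (hfin : {z : E × G | y z.1 z.2 ≠ 0}.Finite) (hy : Ker x p q lab y) :
    ∀ e g, y e g = 0 := by
  classical
  obtain ⟨a, ha, hexp⟩ := Pool.Agent.N195.UDDUAL.main V E (mp p q S) lab hcard hM
  by_contra hne
  push Not at hne
  obtain ⟨n, f, b, k, hn, hw⟩ := closed_walk x χ hχ p q lab S hS a ha y hfin hy hne
  have hstep : ∀ t, ρ (k t) (h (f t)) < ρ (k (t + 1)) (h (f (t + 1))) := by
    intro t
    obtain ⟨⟨h1, h2, h3, h4⟩, -, -, -, h5⟩ := hw t
    have h6 := hh (f (t + 1)) (f t) (b t) (hw (t + 1)).1.1 h1 h2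
      (cut_of_ne p q lab S a ha _ _ _ h3) (cut_of_ne p q lab S a ha _ _ _ h4)
    have h7 := (ρ (k t)).strictMono h6
    rw [h5, map_mul, map_mul]
    exact h7
  have hmono : StrictMono fun t => ρ (k t) (h (f t)) := strictMono_nat_of_lt_succ hstep
  have h1 := hmono hn
  have h2 : f n = f 0 := by
    have := (hw 0).2.1
    rwa [zero_add] at this
  have h3 : k n = k 0 := by
    have := (hw 0).2.2.2.1
    rwa [zero_add] at this
  simp only [h2, h3] at h1
  exact lt_irrefl _ h1

theorem wt_exch {V E Λ : Type} [Fintype E] [DecidableEq E] [AddCommGroup Λ] (lab : E → V) (s : V → Λ)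
    (S : Set E) (n : ℕ) (f b : ℕ → E) (hfS : ∀ t, f t ∉ S) (hbS : ∀ t, b t ∈ S)
    (hf : ∀ t t', t < n → t' < n → t ≠ t' → f t ≠ f t')
    (hb : ∀ t t', t < n → t' < n → t ≠ t' → b t ≠ b t') :
    wt lab s {e | (e ∈ S ∧ ∀ t : Fin n, e ≠ b t) ∨ ∃ t : Fin n, e = f t} =
      wt lab s S - Gn (fun e => s (lab e)) f b n := by
  classical
  have key : ∀ c : ℕ → E, (∀ t t', t < n → t' < n → t ≠ t' → c t ≠ c t') →
      ∑ e, (if e ∈ (range n).image c then s (lab e) else 0) = ∑ t ∈ range n, s (lab (c t)) := by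
    intro c hc
    rw [← Finset.sum_filter, Finset.filter_mem_eq_inter, Finset.univ_inter, Finset.sum_image]
    intro i hi j hj hij
    by_contra hne
    exact hc i j (mem_range.1 hi) (mem_range.1 hj) hne hij
  have h1 : ∀ e, ({e | (e ∈ S ∧ ∀ t : Fin n, e ≠ b t) ∨ ∃ t : Fin n, e = f t} : Set E)ᶜ.indicator
      (fun e => s (lab e)) e = (Sᶜ.indicator (fun e => s (lab e)) e -
        (if e ∈ (range n).image f then s (lab e) else 0)) +
        (if e ∈ (range n).image b then s (lab e) else 0) := by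
    intro e
    by_cases he : e ∈ S
    · have h2 : e ∉ (range n).image f := by
        intro h
        obtain ⟨t, -, rfl⟩ := mem_image.1 h
        exact hfS t he
      have h3 : Sᶜ.indicator (fun e => s (lab e)) e = 0 :=
        Set.indicator_of_notMem (fun h : e ∈ Sᶜ => h he) _
      rw [if_neg h2, h3, sub_zero, zero_add]
      by_cases h4 : e ∈ (range n).image b
      · rw [if_pos h4]
        refine Set.indicator_of_mem ?_ _
        rintro (⟨-, h5⟩ | ⟨t, ht⟩)
        · obtain ⟨t, ht, h6⟩ := mem_image.1 h4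
          exact h5 ⟨t, mem_range.1 ht⟩ h6.symm
        · exact hfS t (ht ▸ he)
      · rw [if_neg h4]
        refine Set.indicator_of_notMem ?_ _
        intro h5
        apply h5
        refine Or.inl ⟨he, fun t ht => h4 ?_⟩
        rw [ht]
        exact mem_image_of_mem b (mem_range.2 t.2)
    · have h2 : e ∉ (range n).image b := by
        intro h
        obtain ⟨t, -, rfl⟩ := mem_image.1 h
        exact he (hbS t)
      have h3 : Sᶜ.indicator (fun e => s (lab e)) e = s (lab e) := Set.indicator_of_mem he _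
      rw [if_neg h2, h3, add_zero]
      by_cases h4 : e ∈ (range n).image f
      · rw [if_pos h4, sub_self]
        refine Set.indicator_of_notMem ?_ _
        intro h5
        apply h5
        obtain ⟨t, ht, h6⟩ := mem_image.1 h4
        exact Or.inr ⟨⟨t, mem_range.1 ht⟩, h6.symm⟩
      · rw [if_neg h4, sub_zero]
        refine Set.indicator_of_mem ?_ _
        rintro (⟨h5, -⟩ | ⟨t, ht⟩)
        · exact he h5
        · apply h4
          rw [ht]
          exact mem_image_of_mem f (mem_range.2 t.2)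
  unfold wt Gn
  rw [Finset.sum_congr rfl fun e _ => h1 e, Finset.sum_add_distrib, Finset.sum_sub_distrib,
    key f hf, key b hb, Finset.sum_sub_distrib]
  abel

/-- the weight test -/
theorem core_weight {V E G Λ Y : Type} [Fintype V] [Fintype E] [DecidableEq V] [DecidableEq E]
    [Group G] [AddCommGroup Λ] [LinearOrder Λ] [IsOrderedAddMonoid Λ] (x : V → G)
    (χ : G →* Multiplicative ℤ) (hχ : ∀ v, χ (x v) = Multiplicative.ofAdd 1) (p q lab : E → V)
    (hcard : Fintype.card V = Fintype.card E + 1) (s : V → Λ) (U : G → Λ → Y)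
    (hinj : ∀ k, Function.Injective (U k))
    (hU : ∀ k u v z, U (k * x u * (x v)⁻¹) z = U k (z + (s u - s v))) (S : Set E)
    (hM : Mix p q lab S) (hS : Spans p lab S)
    (hmin : ∀ S', Mix p q lab S' → Spans p lab S' → S' ≠ S → wt lab s S < wt lab s S')
    (y : E → G → ZMod 2) (hfin : {z : E × G | y z.1 z.2 ≠ 0}.Finite) (hy : Ker x p q lab y) :
    ∀ e g, y e g = 0 := by
  classical
  obtain ⟨a, ha, hexp⟩ := Pool.Agent.N195.UDDUAL.main V E (mp p q S) lab hcard hM
  by_contra hne
  push Not at hne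
  obtain ⟨n, f, b, k, hn, hw⟩ := closed_walk x χ hχ p q lab S hS a ha y hfin hy hne
  have hgain : ∀ m z, U (k m) z = U (k 0) (z + Gn (fun e => s (lab e)) f b m) := by
    intro m
    induction m with
    | zero => intro z; rw [Gn_zero, add_zero]
    | succ m ih =>
      intro z
      rw [(hw m).2.2.2.2, hU, ih, Gn_succ]
      congr 1
      abel
  have hG0 : Gn (fun e => s (lab e)) f b n = 0 := by
    have h1 := hgain n 0
    have h2 := (hw 0).2.2.2.1
    rw [zero_add] at h2
    rw [h2, zero_add] at h1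
    exact (hinj _ h1).symm
  have hwalk : IsWalk (fun e b => a b (p e) + a b (lab e) ≠ 0)
      (fun b e => a e (q b) + a e (lab b) ≠ 0) Sᶜ S n f b :=
    ⟨hn, fun t => (hw t).1.1, fun t => (hw t).1.2.1, fun t => (hw t).1.2.2.1,
      fun t => (hw t).1.2.2.2, fun t => (hw t).2.1, fun t => (hw t).2.2.1⟩
  obtain ⟨n, f, b, hw, hG, hf, hb, hP', hQ'⟩ := exists_short (fun e => s (lab e))
    ⟨n, f, b, hwalk, hG0.ge⟩
  have hX := exch (ι := Fin n) p q lab S a (fun t => f t) (fun t => f (t + 1)) (fun t => b t)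
    (fun t => Gn (fun e => s (lab e)) f b (t + 1))
    (fun t => Gn (fun e => s (lab e)) f b t + s (lab (f t))) hS ha hexp
    (fun t => hw.hf t) (fun t => hw.hb t) (fun t => by
      by_cases ht : (t : ℕ) + 1 < n
      · exact ⟨⟨t + 1, ht⟩, rfl⟩
      · refine ⟨⟨0, hw.pos⟩, ?_⟩
        have h1 : (t : ℕ) + 1 = 0 + n := by
          have := t.2
          omega
        rw [h1, hw.pf])
    (fun t => hw.hP t) (fun t => hw.hQ t)
    (fun t t' hne hP => hP' t t' t.2 t'.2 (fun h => hne (Fin.ext h)) hP)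
    (fun t t' hne hQ => hQ' t t' t.2 t'.2 (fun h => hne (Fin.ext h)) hQ)
  have hlt := hmin _ hX.1 hX.2 (by
    intro h
    have h1 : f 0 ∈ ({e | (e ∈ S ∧ ∀ t : Fin n, e ≠ b t) ∨ ∃ t : Fin n, e = f t} : Set E) :=
      Or.inr ⟨⟨0, hw.pos⟩, rfl⟩
    rw [h] at h1
    exact hw.hf 0 h1)
  rw [wt_exch lab s S n f b hw.hf hw.hb hf hb] at hlt
  exact absurd hlt (not_lt.2 (sub_le_self _ hG))

end Pool.Agent.K9h82.LW
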