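import Pool.Agent.K9h82.LW.Main

/-!
# The order test with coefficients in a field
-/

set_option autoImplicit false

namespace Pool.Agent.K9h82.LW

open Pool.Agent.TH625.LOG Pool.Agent.N819.LT Pool.Agent.N819.UD Finset

section chains

variable {V E k : Type} [Fintype V] [Fintype E] [DecidableEq V] [Field k]

/-- The chain `y` with coefficients in `k` lies in the kernel of the boundary operator. -/
def KerK {V E k G : Type} [Fintype E] [DecidableEq V] [Field k] [Group G] (x : V → G)
    (p q lab : E → V) (y : E → G → k) : Prop :=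
  ∀ v g, ∑ e, ((if p e = v then y e g else 0) +
        (if lab e = v then y e (g * (x (p e))⁻¹) else 0) -
        (if lab e = v then y e g else 0) -
        (if q e = v then y e (g * (x (lab e))⁻¹) else 0)) = 0

/-- The cycle space of the graph with the edges `{p e, lab e}` lies in the span of the functions
`z i`. -/
def SpanCyc {ι : Type} [Fintype ι] (p lab : E → V) (z : ι → E → k) : Prop :=
  ∀ w : E → k, (∀ v, ∑ e, w e * ((if p e = v then 1 else 0) - (if lab e = v then 1 else 0)) = 0) →
    ∃ c : ι → k, ∀ e, w e = ∑ i, c i * z i e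

/-- The coefficient of the generator `x_v` in the pairing of the cycle `z` with the function `a`,
which is constant on the components of the graph with the edges `{p e, lab e}`. -/
def cf (q lab : E → V) (v : V) (z : E → k) (a : V → k) : k :=
  ∑ e, if lab e = v then z e * (a (lab e) - a (q e)) else 0

theorem sum_indK (u : V → k) (w : E → V) (F : E → V → k) :
    ∑ v, u v * ∑ e, (if w e = v then F e v else 0) = ∑ e, u (w e) * F e (w e) := by
  simp only [Finset.mul_sum, mul_ite, mul_zero]
  rw [Finset.sum_comm]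
  refine Finset.sum_congr rfl fun e _ => ?_
  rw [Finset.sum_eq_single (w e)]
  · rw [if_pos rfl]
  · intro v _ hv
    rw [if_neg fun h => hv h.symm]
  · intro h; exact absurd (Finset.mem_univ _) h

variable {G : Type} [Group G] (x : V → G) (χ : G →* Multiplicative ℤ)
  (hχ : ∀ v, χ (x v) = Multiplicative.ofAdd 1) (p q lab : E → V) (y : E → G → k)
  (hy : KerK x p q lab y) (d : ℤ) (hmin : ∀ e g, y e g ≠ 0 → d ≤ Multiplicative.toAdd (χ g))

include hχ hy hmin in
theorem levelK_one (h : G) (hk : Multiplicative.toAdd (χ h) = d) (v : V) :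
    ∑ e, y e h * ((if p e = v then 1 else 0) - (if lab e = v then 1 else 0)) = 0 := by
  have h0 : ∀ e v, y e (h * (x v)⁻¹) = 0 := by
    intro e v
    by_contra hne
    have := hmin e _ hne
    rw [deg_inv x χ hχ] at this
    omega
  have h1 := hy v h
  simp only [h0, ite_self, add_zero, sub_zero] at h1
  refine Eq.trans (Finset.sum_congr rfl fun e _ => ?_) h1
  rw [mul_sub, mul_ite, mul_ite, mul_one, mul_zero]

include hχ hy hmin in
theorem levelK_two (a : V → k) (ha : ∀ e, a (p e) = a (lab e)) (h : G)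
    (hh : Multiplicative.toAdd (χ h) = d + 1) :
    ∑ e, (a (lab e) - a (q e)) * y e (h * (x (lab e))⁻¹) = 0 := by
  have h1 : ∑ v, a v * ∑ e, ((if p e = v then y e h else 0) +
        (if lab e = v then y e (h * (x (p e))⁻¹) else 0) -
        (if lab e = v then y e h else 0) -
        (if q e = v then y e (h * (x (lab e))⁻¹) else 0)) = 0 := by
    refine Finset.sum_eq_zero fun v _ => ?_
    rw [hy v h, mul_zero]
  simp only [Finset.sum_add_distrib, Finset.sum_sub_distrib, mul_add, mul_sub] at h1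
  have e1 := sum_indK a p (fun e _ => y e h)
  have e2 := sum_indK a lab (fun e _ => y e (h * (x (p e))⁻¹))
  have e3 := sum_indK a lab (fun e _ => y e h)
  have e4 := sum_indK a q (fun e _ => y e (h * (x (lab e))⁻¹))
  rw [e1, e2, e3, e4] at h1
  have h2 : ∑ v, a v * ∑ e, y e (h * (x v)⁻¹) *
      ((if p e = v then 1 else 0) - (if lab e = v then 1 else 0)) = 0 := by
    refine Finset.sum_eq_zero fun v _ => ?_
    rw [levelK_one x χ hχ p q lab y hy d hmin (h * (x v)⁻¹) (by rw [deg_inv x χ hχ]; omega) v,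
      mul_zero]
  have h3 : ∑ v, a v * ∑ e, y e (h * (x v)⁻¹) *
      ((if p e = v then 1 else 0) - (if lab e = v then 1 else 0)) =
      ∑ e, (a (p e) * y e (h * (x (p e))⁻¹) - a (lab e) * y e (h * (x (lab e))⁻¹)) := by
    have e5 := sum_indK a p (fun e v => y e (h * (x v)⁻¹))
    have e6 := sum_indK a lab (fun e v => y e (h * (x v)⁻¹))
    rw [Finset.sum_sub_distrib, ← e5, ← e6, ← Finset.sum_sub_distrib]
    refine Finset.sum_congr rfl fun v _ => ?_
    rw [← mul_sub, ← Finset.sum_sub_distrib]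
    congr 1
    refine Finset.sum_congr rfl fun e _ => ?_
    rw [mul_sub, mul_ite, mul_ite, mul_one, mul_zero]
  rw [h3] at h2
  have h4 : ∑ e, (a (lab e) - a (q e)) * y e (h * (x (lab e))⁻¹) =
      (∑ e, a (p e) * y e h + ∑ e, a (lab e) * y e (h * (x (p e))⁻¹) - ∑ e, a (lab e) * y e h -
        ∑ e, a (q e) * y e (h * (x (lab e))⁻¹)) -
      ∑ e, (a (p e) * y e (h * (x (p e))⁻¹) - a (lab e) * y e (h * (x (lab e))⁻¹)) := by
    simp only [← Finset.sum_add_distrib, ← Finset.sum_sub_distrib]
    refine Finset.sum_congr rfl fun e _ => ?_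
    rw [ha e]
    ring
  rw [h4, h1, h2, sub_zero]

end chains

/-- **The order test.** -/
theorem core_field {V E k G X ι : Type} [Fintype V] [Fintype E] [DecidableEq V] [Field k] [Group G]
    [LinearOrder X] [Fintype ι] (ρ : G →* (X ≃o X)) (x : V → G) (χ : G →* Multiplicative ℤ)
    (hχ : ∀ v, χ (x v) = Multiplicative.ofAdd 1) (p q lab : E → V)
    (z : ι → E → k) (a : ι → V → k) (v : ι → V) (h : ι → X)
    (hz : SpanCyc p lab z) (ha : ∀ i e, a i (p e) = a i (lab e))
    (hd : ∀ i, cf q lab (v i) (z i) (a i) ≠ 0)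
    (hh : ∀ i j u, cf q lab u (z j) (a i) ≠ 0 → (j ≠ i ∨ u ≠ v i) →
      h i < ρ (x (v i)) (ρ ((x u)⁻¹) (h j)))
    (y : E → G → k) (hfin : {z : E × G | y z.1 z.2 ≠ 0}.Finite) (hy : KerK x p q lab y) :
    ∀ e g, y e g = 0 := by
  classical
  by_contra hne
  push Not at hne
  obtain ⟨e', g', hne⟩ := hne
  obtain ⟨⟨e0, g0⟩, h0, hmin0⟩ := Set.exists_min_image {z : E × G | y z.1 z.2 ≠ 0}
    (fun z => Multiplicative.toAdd (χ z.2)) hfin ⟨(e', g'), hne⟩
  have hmin : ∀ e g, y e g ≠ 0 → Multiplicative.toAdd (χ g0) ≤ Multiplicative.toAdd (χ g) :=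
    fun e g h => hmin0 (e, g) h
  -- the coefficients
  have hc : ∀ g : G, ∃ c : ι → k, (Multiplicative.toAdd (χ g) = Multiplicative.toAdd (χ g0) →
      ∀ e, y e g = ∑ i, c i * z i e) ∧ ((∀ e, y e g = 0) → ∀ i, c i = 0) := by
    intro g
    by_cases h1 : ∀ e, y e g = 0
    · exact ⟨fun _ => 0, fun _ e => by simp [h1 e], fun _ _ => rfl⟩
    · by_cases h2 : Multiplicative.toAdd (χ g) = Multiplicative.toAdd (χ g0)
      · obtain ⟨c, hc⟩ := hz (fun e => y e g) (levelK_one x χ hχ p q lab y hy _ hmin g h2)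
        exact ⟨c, fun _ => hc, fun h3 => absurd h3 h1⟩
      · exact ⟨fun _ => 0, fun h3 => absurd h3 h2, fun _ _ => rfl⟩
  choose c hc1 hc2 using hc
  let A : Set (ι × G) := {w | Multiplicative.toAdd (χ w.2) = Multiplicative.toAdd (χ g0) ∧
    c w.2 w.1 ≠ 0}
  have hAfin : A.Finite := by
    have h1 : (Prod.snd '' {z : E × G | y z.1 z.2 ≠ 0}).Finite := hfin.image _
    refine (Set.Finite.prod (Set.finite_univ (α := ι)) h1).subset ?_
    rintro ⟨i, g⟩ ⟨-, h2⟩
    refine ⟨Set.mem_univ _, ?_⟩
    by_contra h3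
    apply h2
    refine hc2 g (fun e => ?_) i
    by_contra h4
    exact h3 ⟨(e, g), h4, rfl⟩
  have hA : A.Nonempty := by
    by_contra hcon
    apply h0
    simp only
    rw [hc1 g0 rfl e0]
    refine Finset.sum_eq_zero fun i _ => ?_
    by_cases h1 : c g0 i = 0
    · rw [h1, zero_mul]
    · exact absurd ⟨(i, g0), rfl, h1⟩ hcon
  obtain ⟨⟨i, g⟩, ⟨hg, hi⟩, hmax⟩ := Set.exists_max_image A (fun w => ρ w.2 (h w.1)) hAfin hA
  simp only at hg hi
  have h2 := levelK_two x χ hχ p q lab y hy _ hmin (a i) (ha i) (g * x (v i)) (by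
    rw [map_mul, hχ, ← hg]; rfl)
  have hdeg : ∀ u, Multiplicative.toAdd (χ (g * x (v i) * (x u)⁻¹)) =
      Multiplicative.toAdd (χ g0) := by
    intro u
    rw [deg_inv x χ hχ, map_mul, hχ, ← hg]
    simp
  have h3 : ∑ e, (a i (lab e) - a i (q e)) * y e (g * x (v i) * (x (lab e))⁻¹) =
      ∑ w : V × ι, c (g * x (v i) * (x w.1)⁻¹) w.2 * cf q lab w.1 (z w.2) (a i) := by
    rw [Fintype.sum_prod_type]
    have e1 : ∀ e, (a i (lab e) - a i (q e)) * y e (g * x (v i) * (x (lab e))⁻¹) =
        ∑ u, if lab e = u then (a i (lab e) - a i (q e)) * y e (g * x (v i) * (x u)⁻¹) else 0 := by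
      intro e
      rw [Finset.sum_ite_eq, if_pos (Finset.mem_univ _)]
    rw [Finset.sum_congr rfl fun e _ => e1 e, Finset.sum_comm]
    refine Finset.sum_congr rfl fun u _ => ?_
    unfold cf
    simp only [Finset.mul_sum]
    rw [Finset.sum_comm]
    refine Finset.sum_congr rfl fun e _ => ?_
    by_cases h4 : lab e = u
    · simp only [h4, if_true]
      rw [hc1 _ (hdeg u) e, Finset.mul_sum]
      refine Finset.sum_congr rfl fun j _ => ?_
      ring
    · simp only [h4, if_false, mul_zero, Finset.sum_const_zero]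
  rw [h3, Finset.sum_eq_single (v i, i)] at h2
  · simp only [mul_inv_cancel_right] at h2
    rcases mul_eq_zero.1 h2 with h4 | h4
    · exact hi h4
    · exact hd i h4
  · rintro ⟨u, j⟩ - hne
    by_cases h4 : cf q lab u (z j) (a i) = 0
    · simp only [h4, mul_zero]
    · by_cases h5 : c (g * x (v i) * (x u)⁻¹) j = 0
      · simp only [h5, zero_mul]
      · exfalso
        have h6 : j ≠ i ∨ u ≠ v i := by
          by_contra h7
          push Not at h7
          apply hne
          rw [h7.1, h7.2]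
        have h7 := (ρ g).strictMono (hh i j u h4 h6)
        have h8 := hmax (j, g * x (v i) * (x u)⁻¹) ⟨hdeg u, h5⟩
        simp only [map_mul] at h8
        exact absurd h8 (not_le.2 h7)
  · intro h4
    exact absurd (Finset.mem_univ _) h4

end Pool.Agent.K9h82.LW
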