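import Pool.Agent.K9h82.LW.Fld

/-!
# From a field to the integers, and the reversal of a labelled oriented graph
-/

set_option autoImplicit false

namespace Pool.Agent.K9h82.LW

open Pool.Agent.TH625.LOG Pool.Agent.N819.LT Pool.Agent.N819.UD Finset
open Pool.Agent.N249.UD_MOD2 (bdry_zero bdry_add)

variable {V E : Type}

theorem bd_int [Fintype E] [DecidableEq V] [DecidableEq E] (L : LOG V E)
    (c : (E × L.G) →₀ ℤ) (v : V) (g : L.G) :
    L.bdry c (v, g) =
      ∑ e, ((if L.ini e = v then c (e, g) else 0) +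
        (if L.lab e = v then c (e, g * (L.gen (L.ini e))⁻¹) else 0) -
        (if L.lab e = v then c (e, g) else 0) -
        (if L.ter e = v then c (e, g * (L.gen (L.lab e))⁻¹) else 0)) := by
  classical
  induction c using Finsupp.induction_linear with
  | zero => simp [bdry_zero]
  | add c d hc hd =>
    rw [bdry_add, Finsupp.add_apply, hc, hd, ← Finset.sum_add_distrib]
    refine Finset.sum_congr rfl fun e _ => ?_
    simp only [Finsupp.add_apply]
    split_ifs <;> ring
  | single d n =>
    obtain ⟨e0, g0⟩ := d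
    have hb : L.bdry (Finsupp.single (e0, g0) n) =
        ∑ k : Fin 4, Finsupp.single (L.side (e0, g0) k) (sgn k * n) := by
      unfold LOG.bdry
      refine Finsupp.sum_single_index ?_
      refine Finset.sum_eq_zero fun k _ => ?_
      rw [mul_zero, Finsupp.single_zero]
    have s0 : (Finsupp.single (L.side (e0, g0) 0) (sgn 0 * n)) (v, g) =
        if L.ini e0 = v ∧ g0 = g then n else 0 := by
      have h1 : L.side (e0, g0) 0 = (L.ini e0, g0) := by
        change (L.ini e0, g0 * 1) = _
        rw [mul_one]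
      have h2 : sgn 0 = 1 := rfl
      rw [h1, h2, one_mul, Finsupp.single_apply]
      simp only [Prod.mk.injEq]
    have s1 : (Finsupp.single (L.side (e0, g0) 1) (sgn 1 * n)) (v, g) =
        if L.lab e0 = v ∧ g0 * L.gen (L.ini e0) = g then n else 0 := by
      have h1 : L.side (e0, g0) 1 = (L.lab e0, g0 * L.gen (L.ini e0)) := rfl
      have h2 : sgn 1 = 1 := rfl
      rw [h1, h2, one_mul, Finsupp.single_apply]
      simp only [Prod.mk.injEq]
    have s2 : (Finsupp.single (L.side (e0, g0) 2) (sgn 2 * n)) (v, g) =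
        if L.lab e0 = v ∧ g0 = g then -n else 0 := by
      have h1 : L.side (e0, g0) 2 = (L.lab e0, g0) := by
        change (L.lab e0, g0 * 1) = _
        rw [mul_one]
      have h2 : sgn 2 = -1 := rfl
      rw [h1, h2, neg_one_mul, Finsupp.single_apply]
      simp only [Prod.mk.injEq]
    have s3 : (Finsupp.single (L.side (e0, g0) 3) (sgn 3 * n)) (v, g) =
        if L.ter e0 = v ∧ g0 * L.gen (L.lab e0) = g then -n else 0 := by
      have h1 : L.side (e0, g0) 3 = (L.ter e0, g0 * L.gen (L.lab e0)) := rfl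
      have h2 : sgn 3 = -1 := rfl
      rw [h1, h2, neg_one_mul, Finsupp.single_apply]
      simp only [Prod.mk.injEq]
    have c0 : ∀ g' : L.G, (Finsupp.single (e0, g0) n) (e0, g') = if g0 = g' then n else 0 := by
      intro g'
      rw [Finsupp.single_apply]
      simp only [Prod.mk.injEq, true_and]
    have c1 : ∀ x : L.G, (Finsupp.single (e0, g0) n) (e0, g * x⁻¹) =
        if g0 * x = g then n else 0 := by
      intro x
      rw [c0]
      simp only [eq_mul_inv_iff_mul_eq]
    rw [hb, Finset.sum_eq_single e0]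
    · rw [Finsupp.finsetSum_apply, Fin.sum_univ_four, s0, s1, s2, s3, c0, c1, c1]
      simp only [ite_and]
      split_ifs <;> ring
    · intro e _ he
      have h0 : ∀ g' : L.G, (Finsupp.single (e0, g0) n) (e, g') = 0 := by
        intro g'
        rw [Finsupp.single_apply, if_neg]
        intro h
        exact he (congrArg Prod.fst h).symm
      rw [h0, h0, h0]
      simp
    · intro h
      exact absurd (Finset.mem_univ _) h

/-- the boundary operator as an additive map -/
noncomputable def bdA (L : LOG V E) : ((E × L.G) →₀ ℤ) →+ ((V × L.G) →₀ ℤ) where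
  toFun := L.bdry
  map_zero' := bdry_zero L
  map_add' := bdry_add L

theorem int_of_field (k : Type) [Field k] [Fintype E] [DecidableEq V] [DecidableEq E] (L : LOG V E)
    (hy : ∀ y : E → L.G → k, {z : E × L.G | y z.1 z.2 ≠ 0}.Finite →
      KerK L.gen L.ini L.ter L.lab y → ∀ e g, y e g = 0)
    (c : (E × L.G) →₀ ℤ) (hc : L.bdry c = 0) : c = 0 := by
  have step : ∀ c : (E × L.G) →₀ ℤ, L.bdry c = 0 → ∀ d, ((c d : ℤ) : k) = 0 := by
    intro c hc
    have h1 : ∀ e g, ((c (e, g) : ℤ) : k) = 0 := by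
      refine hy (fun e g => ((c (e, g) : ℤ) : k)) ?_ ?_
      · refine (c.support.finite_toSet).subset fun z hz => ?_
        rw [Finset.mem_coe, Finsupp.mem_support_iff]
        intro h
        apply hz
        change ((c (z.1, z.2) : ℤ) : k) = 0
        rw [Prod.mk.eta, h, Int.cast_zero]
      · intro v g
        have h2 := bd_int L c v g
        rw [hc, Finsupp.coe_zero, Pi.zero_apply] at h2
        have h3 := congrArg (Int.cast : ℤ → k) h2
        rw [Int.cast_zero, Int.cast_sum] at h3
        refine Eq.trans (Finset.sum_congr rfl fun e _ => ?_) h3.symm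
        push_cast
        rfl
    rintro ⟨e, g⟩
    exact h1 e g
  set p := ringChar k with hp
  have hdvd : ∀ c : (E × L.G) →₀ ℤ, L.bdry c = 0 → ∀ d, (p : ℤ) ∣ c d := by
    intro c hc d
    exact (CharP.intCast_eq_zero_iff k p (c d)).1 (step c hc d)
  by_cases hp0 : p = 0
  · ext d
    have h1 := hdvd c hc d
    rw [hp0, Nat.cast_zero, zero_dvd_iff] at h1
    rw [h1, Finsupp.coe_zero, Pi.zero_apply]
  have hp2 : 2 ≤ p := by
    have h1 : p ≠ 1 := CharP.ringChar_ne_one
    omega
  have hpow : ∀ n : ℕ, ∀ c : (E × L.G) →₀ ℤ, L.bdry c = 0 → ∀ d, (p : ℤ) ^ n ∣ c d := by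
    intro n
    induction n with
    | zero => intro c _ d; rw [pow_zero]; exact one_dvd _
    | succ n ih =>
      intro c hc d
      let c' : (E × L.G) →₀ ℤ := c.mapRange (fun m => m / p) (by simp)
      have h3 : (p : ℤ) • c' = c := by
        ext d
        rw [Finsupp.smul_apply, Finsupp.mapRange_apply, smul_eq_mul]
        exact Int.mul_ediv_cancel' (hdvd c hc d)
      have h4 : L.bdry c' = 0 := by
        have h5 : (p : ℤ) • bdA L c' = 0 := by
          rw [← map_zsmul, h3]
          exact hc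
        rcases smul_eq_zero.1 h5 with h6 | h6
        · exact absurd (by exact_mod_cast h6) hp0
        · exact h6
      obtain ⟨m, hm⟩ := ih c' h4 d
      refine ⟨m, ?_⟩
      rw [← h3, Finsupp.smul_apply, smul_eq_mul, hm, pow_succ]
      ring
  ext d
  rw [Finsupp.coe_zero, Pi.zero_apply]
  have h1 := hpow (c d).natAbs c hc d
  refine Int.eq_zero_of_abs_lt_dvd h1 ?_
  have h2 : (c d).natAbs < p ^ (c d).natAbs := Nat.lt_pow_self hp2
  rw [Int.abs_eq_natAbs]
  exact_mod_cast h2

theorem ext_memK {k G : Type} [Zero k] (S : Set E) (y : S → G → k) : ∃ y' : E → G → k,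
    (∀ (e : S) g, y' e g = y e g) ∧ ∀ e, e ∉ S → ∀ g, y' e g = 0 := by
  classical
  refine ⟨fun e g => if h : e ∈ S then y ⟨e, h⟩ g else 0, fun e g => dif_pos e.2,
    fun e he g => dif_neg he⟩

/-- the reversed chain -/
theorem kerK_rev {k : Type} [Field k] [Fintype E] [DecidableEq V] (L : LOG V E) (y : E → L.G → k)
    (hy : KerK L.gen L.ini L.ter L.lab y) :
    KerK (fun v => (L.gen v)⁻¹) L.ter L.ini L.lab
      (fun e g => y e (g * (L.gen (L.lab e))⁻¹ * (L.gen (L.ini e))⁻¹)) := by
  intro v g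
  have h := hy v (g * (L.gen v)⁻¹)
  rw [← neg_eq_zero, ← Finset.sum_neg_distrib]
  refine Eq.trans (Finset.sum_congr rfl fun e _ => ?_) h
  have t1 : (if L.ter e = v then y e (g * (L.gen (L.lab e))⁻¹ * (L.gen (L.ini e))⁻¹) else 0) =
      if L.ter e = v then y e (g * (L.gen v)⁻¹ * (L.gen (L.lab e))⁻¹) else 0 := by
    split_ifs with h1
    · subst h1
      rw [rel_inv]
    · rfl
  have t2 : (if L.lab e = v then y e (g * ((L.gen (L.ter e))⁻¹)⁻¹ * (L.gen (L.lab e))⁻¹ *
        (L.gen (L.ini e))⁻¹) else 0) =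
      if L.lab e = v then y e (g * (L.gen v)⁻¹) else 0 := by
    split_ifs with h1
    · subst h1
      rw [rel_inv, inv_inv, mul_inv_cancel_right]
    · rfl
  have t3 : (if L.lab e = v then y e (g * (L.gen (L.lab e))⁻¹ * (L.gen (L.ini e))⁻¹) else 0) =
      if L.lab e = v then y e (g * (L.gen v)⁻¹ * (L.gen (L.ini e))⁻¹) else 0 := by
    split_ifs with h1
    · subst h1
      rfl
    · rfl
  have t4 : (if L.ini e = v then y e (g * ((L.gen (L.lab e))⁻¹)⁻¹ * (L.gen (L.lab e))⁻¹ *
        (L.gen (L.ini e))⁻¹) else 0) =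
      if L.ini e = v then y e (g * (L.gen v)⁻¹) else 0 := by
    split_ifs with h1
    · subst h1
      rw [inv_inv, mul_inv_cancel_right]
    · rfl
  beta_reduce
  rw [t1, t2, t3, t4]
  ring

theorem kerK_ext {k G : Type} [Field k] [Group G] [Fintype E] [DecidableEq V] (S : Set E)
    [Fintype S] (x : V → G) (p q lab : E → V) (y : S → G → k) (y' : E → G → k)
    (h1 : ∀ (e : S) g, y' e g = y e g) (h2 : ∀ e, e ∉ S → ∀ g, y' e g = 0)
    (hy : KerK x (fun e : S => p e) (fun e : S => q e) (fun e : S => lab e) y) :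
    KerK x p q lab y' := by
  intro v g
  refine Eq.trans (Eq.symm ?_) (hy v g)
  refine Fintype.sum_of_injective (fun e : S => (e : E)) Subtype.val_injective _ _ ?_ ?_
  · intro e he
    have he' : e ∉ S := fun h => he ⟨⟨e, h⟩, rfl⟩
    simp only [h2 e he', ite_self, add_zero, sub_zero]
  · intro e
    simp only [h1]

theorem fin_extK {k G : Type} [Zero k] (S : Set E) (y : S → G → k) (y' : E → G → k)
    (h1 : ∀ (e : S) g, y' e g = y e g) (h2 : ∀ e, e ∉ S → ∀ g, y' e g = 0)
    (h : {z : S × G | y z.1 z.2 ≠ 0}.Finite) : {z : E × G | y' z.1 z.2 ≠ 0}.Finite := by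
  refine (h.image fun z : S × G => ((z.1 : E), z.2)).subset ?_
  rintro ⟨e, g⟩ hz
  by_cases he : e ∈ S
  · refine ⟨(⟨e, he⟩, g), ?_, rfl⟩
    have := h1 ⟨e, he⟩ g
    simp only [Set.mem_ofPred_eq] at hz ⊢
    rwa [this] at hz
  · exact absurd (h2 e he g) hz

section

variable [Fintype V] [Fintype E] [DecidableEq V] [DecidableEq E]

omit [Fintype V] [DecidableEq E] in
/-- the initial version -/
theorem red_ini (k : Type) [Field k] (L : LOG V E) (S' : Set E)
    (hcore : ∀ y : E → (sub L S').G → k, {z : E × (sub L S').G | y z.1 z.2 ≠ 0}.Finite →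
      KerK (sub L S').gen L.ini L.ter L.lab y → ∀ e g, y e g = 0)
    (c : (S' × (sub L S').G) →₀ ℤ) (hc : (sub L S').bdry c = 0) : c = 0 := by
  classical
  refine int_of_field k (sub L S') ?_ c hc
  intro y hfin hy e g
  obtain ⟨y', h1, h2⟩ := ext_memK S' y
  rw [← h1]
  exact hcore y' (fin_extK S' y y' h1 h2 hfin) (kerK_ext S' _ L.ini L.ter L.lab y y' h1 h2 hy) _ _

omit [Fintype V] [DecidableEq E] in
/-- the terminal version -/
theorem red_ter (k : Type) [Field k] (L : LOG V E) (S' : Set E)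
    (hcore : ∀ y : E → (sub L S').G → k, {z : E × (sub L S').G | y z.1 z.2 ≠ 0}.Finite →
      KerK (fun v => ((sub L S').gen v)⁻¹) L.ter L.ini L.lab y → ∀ e g, y e g = 0)
    (c : (S' × (sub L S').G) →₀ ℤ) (hc : (sub L S').bdry c = 0) : c = 0 := by
  classical
  refine int_of_field k (sub L S') ?_ c hc
  intro y hfin hy e g
  let M := sub L S'
  let y1 : S' → M.G → k := fun e g => y e (g * (M.gen (M.lab e))⁻¹ * (M.gen (M.ini e))⁻¹)
  have hy1 : KerK (fun v => (M.gen v)⁻¹) M.ter M.ini M.lab y1 := kerK_rev M y hy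
  have hfin1 : {z : S' × M.G | y1 z.1 z.2 ≠ 0}.Finite := by
    refine (hfin.preimage (f := fun z : S' × M.G =>
      (z.1, z.2 * (M.gen (M.lab z.1))⁻¹ * (M.gen (M.ini z.1))⁻¹)) ?_).subset ?_
    · rintro ⟨e1, g1⟩ _ ⟨e2, g2⟩ _ h
      simp only [Prod.mk.injEq] at h
      obtain ⟨h1, h3⟩ := h
      subst h1
      simp only [mul_left_inj] at h3
      rw [h3]
    · intro z hz
      exact hz
  obtain ⟨y', h1, h2⟩ := ext_memK S' y1
  have h := hcore y' (fin_extK S' y1 y' h1 h2 hfin1)
    (kerK_ext S' _ L.ter L.ini L.lab y1 y' h1 h2 hy1) e (g * M.gen (M.ini e) * M.gen (M.lab e))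
  rw [h1] at h
  have h3 : y1 e (g * M.gen (M.ini e) * M.gen (M.lab e)) = y e g := by
    change y e (g * M.gen (M.ini e) * M.gen (M.lab e) * (M.gen (M.lab e))⁻¹ * (M.gen (M.ini e))⁻¹) = _
    rw [mul_inv_cancel_right, mul_inv_cancel_right]
  rwa [h3] at h

end

end Pool.Agent.K9h82.LW
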