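import Pool.Agent.K9h82.LW.Core
import Pool.Agent.N249.UD_MOD2

/-!
# Subcomplexes of the complex of a labelled oriented tree: the order test and the weight test
-/

set_option autoImplicit false

namespace Pool.Agent.K9h82.LW

open Pool.Agent.TH625.LOG Pool.Agent.N819.LT Pool.Agent.N819.UD Finset

variable {V E : Type}

/-- the homomorphism from the group of a subcomplex -/
def subHom (L : LOG V E) (S' : Set E) : (sub L S').G →* L.G :=
  PresentedGroup.toGroup (f := L.gen) (by
    rintro _ ⟨e, rfl⟩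
    simp only [LOG.rel, map_mul, map_inv, FreeGroup.lift_apply_of]
    rw [mul_inv_eq_one, mul_inv_eq_iff_eq_mul]
    exact Pool.Agent.N819.UD.gen_rel L e)

theorem subHom_gen (L : LOG V E) (S' : Set E) (v : V) :
    subHom L S' ((sub L S').gen v) = L.gen v :=
  PresentedGroup.toGroup.of _

/-- An Alexander colouring with values in `Λ`, one for every degree: the permutations
`(l, z) ↦ (l + 1, z + F l v)` of `ℤ × Λ` satisfy the relations of the generators `x_v`. -/
def IsCol {Λ : Type} [AddCommGroup Λ] (L : LOG V E) (F : ℤ → V → Λ) : Prop :=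
  ∀ l e, F (l + 1) (L.ini e) + F l (L.lab e) = F (l + 1) (L.lab e) + F l (L.ter e)

/-- the permutation of a generator -/
def stp {Λ : Type} [AddCommGroup Λ] (F : ℤ → V → Λ) (v : V) : Equiv.Perm (ℤ × Λ) where
  toFun z := (z.1 + 1, z.2 + F z.1 v)
  invFun z := (z.1 - 1, z.2 - F (z.1 - 1) v)
  left_inv z := by simp
  right_inv z := by simp

/-- the action of the group -/
def colHom {Λ : Type} [AddCommGroup Λ] (L : LOG V E) (F : ℤ → V → Λ) (hF : IsCol L F) :
    L.G →* Equiv.Perm (ℤ × Λ) :=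
  PresentedGroup.toGroup (f := stp F) (by
    rintro _ ⟨e, rfl⟩
    simp only [LOG.rel, map_mul, map_inv, FreeGroup.lift_apply_of]
    rw [mul_inv_eq_one, mul_inv_eq_iff_eq_mul]
    ext1 z
    rw [Equiv.Perm.mul_apply, Equiv.Perm.mul_apply]
    change (z.1 + 1 + 1, z.2 + F z.1 (L.lab e) + F (z.1 + 1) (L.ini e)) =
      (z.1 + 1 + 1, z.2 + F z.1 (L.ter e) + F (z.1 + 1) (L.lab e))
    have := hF z.1 e
    refine Prod.ext rfl ?_
    change z.2 + F z.1 (L.lab e) + F (z.1 + 1) (L.ini e) =
      z.2 + F z.1 (L.ter e) + F (z.1 + 1) (L.lab e)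
    rw [add_assoc, add_comm (F z.1 (L.lab e)), this, add_assoc, add_comm (F z.1 (L.ter e))])

theorem colHom_gen {Λ : Type} [AddCommGroup Λ] (L : LOG V E) (F : ℤ → V → Λ) (hF : IsCol L F)
    (v : V) : colHom L F hF (L.gen v) = stp F v :=
  PresentedGroup.toGroup.of _

/-- the order test, initial version -/
def OrdTest (L : LOG V E) (X : Type) [LinearOrder X] (ρ : L.G →* (X ≃o X)) : Prop :=
  ∃ (S : Set E) (h : E → X), Mix L.ini L.ter L.lab S ∧ Spans L.ini L.lab S ∧
    ∀ e f b, e ∉ S → f ∉ S → b ∈ S → Cut L.ini L.ter L.lab S b (L.ini e) (L.lab e) →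
      Cut L.ini L.ter L.lab S f (L.ter b) (L.lab b) →
      h f < ρ (L.gen (L.lab f) * (L.gen (L.lab b))⁻¹) (h e)

/-- the order test, terminal version -/
def OrdTest' (L : LOG V E) (X : Type) [LinearOrder X] (ρ : L.G →* (X ≃o X)) : Prop :=
  ∃ (S : Set E) (h : E → X), Mix L.ter L.ini L.lab S ∧ Spans L.ter L.lab S ∧
    ∀ e f b, e ∉ S → f ∉ S → b ∈ S → Cut L.ter L.ini L.lab S b (L.ter e) (L.lab e) →
      Cut L.ter L.ini L.lab S f (L.ini b) (L.lab b) →
      h f < ρ ((L.gen (L.lab f))⁻¹ * L.gen (L.lab b)) (h e)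

section

variable [Fintype V] [Fintype E] [DecidableEq V] [DecidableEq E]

theorem ord_ini (L : LOG V E) (hcard : Fintype.card V = Fintype.card E + 1) (X : Type)
    [LinearOrder X] (ρ : L.G →* (X ≃o X)) (ht : OrdTest L X ρ) (S' : Set E)
    (c : (S' × (sub L S').G) →₀ ℤ) (hc : (sub L S').bdry c = 0) : c = 0 := by
  classical
  refine Pool.Agent.N249.UD_MOD2.main V S' (sub L S') ?_ c hc
  intro y hfin hy e g
  obtain ⟨S, h, hM, hS, hh⟩ := ht
  have h1 := core_order (ρ.comp (subHom L S')) (sub L S').gen (chi (sub L S')) (chi_gen _)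
    L.ini L.ter L.lab hcard S hM hS h (by
      intro e f b he hf hb h1 h2
      have h3 := hh e f b he hf hb h1 h2
      rw [MonoidHom.comp_apply, MonoidHom.comp_apply, map_inv, subHom_gen, subHom_gen]
      rw [map_mul] at h3
      exact h3)
    (ext S' y) (fin_ext S' y hfin) (ker_ext S' _ L.ini L.ter L.lab y hy) e g
  rwa [ext_mem] at h1

theorem weight_ini {Λ : Type} [AddCommGroup Λ] [LinearOrder Λ] [IsOrderedAddMonoid Λ]
    (L : LOG V E) (hcard : Fintype.card V = Fintype.card E + 1) (F : ℤ → V → Λ) (hF : IsCol L F)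
    (S : Set E) (hM : Mix L.ini L.ter L.lab S) (hS : Spans L.ini L.lab S)
    (hmin : ∀ S', Mix L.ini L.ter L.lab S' → Spans L.ini L.lab S' → S' ≠ S →
      wt L.lab (F 0) S < wt L.lab (F 0) S') (S' : Set E)
    (c : (S' × (sub L S').G) →₀ ℤ) (hc : (sub L S').bdry c = 0) : c = 0 := by
  classical
  refine Pool.Agent.N249.UD_MOD2.main V S' (sub L S') ?_ c hc
  intro y hfin hy e g
  have h1 := core_weight (sub L S').gen (chi (sub L S')) (chi_gen _) L.ini L.ter L.lab hcard
    (F 0) (fun k z => ((colHom L F hF).comp (subHom L S')) k (1, z))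
    (fun k z z' h => by
      have := (((colHom L F hF).comp (subHom L S')) k).injective h
      exact (Prod.mk.inj this).2)
    (fun k u v z => by
      simp only [map_mul, map_inv, MonoidHom.comp_apply, subHom_gen, colHom_gen,
        Equiv.Perm.mul_apply]
      congr 1
      change ((1 : ℤ) - 1 + 1, z - F (1 - 1) v + F (1 - 1) u) = ((1 : ℤ), z + (F 0 u - F 0 v))
      rw [sub_self, zero_add]
      congr 1
      abel)
    S hM hS hmin (ext S' y) (fin_ext S' y hfin) (ker_ext S' _ L.ini L.ter L.lab y hy) e g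
  rwa [ext_mem] at h1

/-- reduction of the terminal version -/
theorem ter_red (L : LOG V E) (S' : Set E)
    (hcore : ∀ y : E → (sub L S').G → ZMod 2, {z : E × (sub L S').G | y z.1 z.2 ≠ 0}.Finite →
      Ker (fun v => ((sub L S').gen v)⁻¹) L.ter L.ini L.lab y → ∀ e g, y e g = 0)
    (c : (S' × (sub L S').G) →₀ ℤ) (hc : (sub L S').bdry c = 0) : c = 0 := by
  classical
  refine Pool.Agent.N249.UD_MOD2.main V S' (sub L S') ?_ c hc
  intro y hfin hy e g
  let M := sub L S'
  let y' : S' → M.G → ZMod 2 := fun e g => y e (g * (M.gen (M.lab e))⁻¹ * (M.gen (M.ini e))⁻¹)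
  have hy' : Ker (fun v => (M.gen v)⁻¹) M.ter M.ini M.lab y' := ker_rev M y hy
  have hfin' : {z : S' × M.G | y' z.1 z.2 ≠ 0}.Finite := by
    refine (hfin.preimage (f := fun z : S' × M.G =>
      (z.1, z.2 * (M.gen (M.lab z.1))⁻¹ * (M.gen (M.ini z.1))⁻¹)) ?_).subset ?_
    · rintro ⟨e1, g1⟩ _ ⟨e2, g2⟩ _ h
      simp only [Prod.mk.injEq] at h
      obtain ⟨h1, h3⟩ := h
      subst h1
      simp only [mul_left_inj] at h3
      rw [h3]
    · intro z hz
      exact hz
  have h := hcore (ext S' y') (fin_ext S' y' hfin') (ker_ext S' _ L.ter L.ini L.lab y' hy') e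
    (g * M.gen (M.ini e) * M.gen (M.lab e))
  rw [ext_mem] at h
  have h3 : y' e (g * M.gen (M.ini e) * M.gen (M.lab e)) = y e g := by
    change y e (g * M.gen (M.ini e) * M.gen (M.lab e) * (M.gen (M.lab e))⁻¹ * (M.gen (M.ini e))⁻¹) = _
    rw [mul_inv_cancel_right, mul_inv_cancel_right]
  rwa [h3] at h

omit [Fintype V] [Fintype E] [DecidableEq V] [DecidableEq E] in
theorem chi_rev (L : LOG V E) (v : V) : (chi L)⁻¹ ((L.gen v)⁻¹) = Multiplicative.ofAdd 1 := by
  rw [MonoidHom.inv_apply, map_inv, inv_inv, chi_gen]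

theorem ord_ter (L : LOG V E) (hcard : Fintype.card V = Fintype.card E + 1) (X : Type)
    [LinearOrder X] (ρ : L.G →* (X ≃o X)) (ht : OrdTest' L X ρ) (S' : Set E)
    (c : (S' × (sub L S').G) →₀ ℤ) (hc : (sub L S').bdry c = 0) : c = 0 := by
  classical
  refine ter_red L S' ?_ c hc
  intro y hfin hy
  obtain ⟨S, h, hM, hS, hh⟩ := ht
  refine core_order (ρ.comp (subHom L S')) (fun v => ((sub L S').gen v)⁻¹) (chi (sub L S'))⁻¹
    (chi_rev _) L.ter L.ini L.lab hcard S hM hS h ?_ y hfin hy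
  intro e f b he hf hb h1 h2
  have h3 := hh e f b he hf hb h1 h2
  rw [MonoidHom.comp_apply, MonoidHom.comp_apply, inv_inv, map_inv, subHom_gen, subHom_gen]
  rw [map_mul] at h3
  exact h3

theorem weight_ter {Λ : Type} [AddCommGroup Λ] [LinearOrder Λ] [IsOrderedAddMonoid Λ]
    (L : LOG V E) (hcard : Fintype.card V = Fintype.card E + 1) (F : ℤ → V → Λ) (hF : IsCol L F)
    (S : Set E) (hM : Mix L.ter L.ini L.lab S) (hS : Spans L.ter L.lab S)
    (hmin : ∀ S', Mix L.ter L.ini L.lab S' → Spans L.ter L.lab S' → S' ≠ S →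
      wt L.lab (F 0) S < wt L.lab (F 0) S') (S' : Set E)
    (c : (S' × (sub L S').G) →₀ ℤ) (hc : (sub L S').bdry c = 0) : c = 0 := by
  classical
  refine ter_red L S' ?_ c hc
  intro y hfin hy
  have hF' : IsCol L (fun l v => - F l v) := by
    intro l e
    have := hF l e
    rw [← neg_add, ← neg_add, this]
  refine core_weight (fun v => ((sub L S').gen v)⁻¹) (chi (sub L S'))⁻¹ (chi_rev _)
    L.ter L.ini L.lab hcard (F 0)
    (fun k z => ((colHom L (fun l v => - F l v) hF').comp (subHom L S')) k (0, z))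
    (fun k z z' h => by
      have := (((colHom L (fun l v => - F l v) hF').comp (subHom L S')) k).injective h
      exact (Prod.mk.inj this).2)
    (fun k u v z => by
      simp only [map_mul, map_inv, inv_inv, MonoidHom.comp_apply, subHom_gen, colHom_gen,
        Equiv.Perm.mul_apply]
      congr 1
      change ((0 : ℤ) + 1 - 1, z + - F 0 v - - F (0 + 1 - 1) u) = ((0 : ℤ), z + (F 0 u - F 0 v))
      rw [add_sub_cancel_right]
      congr 1
      abel)
    S hM hS hmin y hfin hy

end

end Pool.Agent.K9h82.LW
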