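import Pool.Agent.N819.UD.Main
import Pool.Agent.N195.UD_DUAL

/-!
# Closed walks in the exchange digraph of a spanning decomposition
-/

set_option autoImplicit false

namespace Pool.Agent.K9h82.LW

open Pool.Agent.TH625.LOG Pool.Agent.N819.LT Pool.Agent.N819.UD Finset

/-- Some union of components of the graph with the edges `{p e, lab e}`, `e ∈ S`, and `{q e, lab e}`,
`e ∉ S`, without the edge which belongs to `c`, contains `u` and does not contain `v`. -/
def Cut {V E : Type} (p q lab : E → V) (S : Set E) (c : E) (u v : V) : Prop :=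
  ∃ P : V → Prop, (∀ e, e ≠ c → (P (mp p q S e) ↔ P (lab e))) ∧ P u ∧ ¬ P v

theorem cut_of_ne {V E : Type} [DecidableEq E] (p q lab : E → V) (S : Set E) (a : E → V → ZMod 2)
    (ha : ∀ f e, a f (mp p q S e) + a f (lab e) = if e = f then 1 else 0) (c : E) (u v : V)
    (h : a c u + a c v ≠ 0) : Cut p q lab S c u v := by
  refine ⟨fun w => a c w = a c u, ?_, rfl, ?_⟩
  · intro e he
    have h1 := ha c e
    rw [if_neg he] at h1
    change a c (mp p q S e) = a c u ↔ a c (lab e) = a c u
    rw [z2 _ _ h1]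
  · intro h1
    apply h
    change a c v = a c u at h1
    rw [h1]
    exact z2s _

theorem closed_walk {V E G : Type} [Fintype V] [Fintype E] [DecidableEq V] [DecidableEq E] [Group G]
    (x : V → G) (χ : G →* Multiplicative ℤ) (hχ : ∀ v, χ (x v) = Multiplicative.ofAdd 1)
    (p q lab : E → V) (S : Set E) (hS : Spans p lab S) (a : E → V → ZMod 2)
    (ha : ∀ f e, a f (mp p q S e) + a f (lab e) = if e = f then 1 else 0)
    (y : E → G → ZMod 2) (hfin : {z : E × G | y z.1 z.2 ≠ 0}.Finite) (hy : Ker x p q lab y)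
    (hne : ∃ e g, y e g ≠ 0) :
    ∃ (n : ℕ) (f b : ℕ → E) (k : ℕ → G), 0 < n ∧
      ∀ t, (f t ∉ S ∧ b t ∈ S ∧ a (b t) (p (f (t + 1))) + a (b t) (lab (f (t + 1))) ≠ 0 ∧
        a (f t) (q (b t)) + a (f t) (lab (b t)) ≠ 0) ∧ f (t + n) = f t ∧ b (t + n) = b t ∧
        k (t + n) = k t ∧ k (t + 1) = k t * x (lab (f t)) * (x (lab (b t)))⁻¹ := by
  classical
  obtain ⟨e', g', hne⟩ := hne
  obtain ⟨⟨e0, g0⟩, h0, hmin0⟩ := Set.exists_min_image {z : E × G | y z.1 z.2 ≠ 0}
    (fun z => Multiplicative.toAdd (χ z.2)) hfin ⟨(e', g'), hne⟩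
  have hmin : ∀ e g, y e g ≠ 0 → Multiplicative.toAdd (χ g0) ≤ Multiplicative.toAdd (χ g) :=
    fun e g h => hmin0 (e, g) h
  have hmpS : ∀ e ∈ S, mp p q S e = p e := fun e he => by unfold mp; exact if_pos he
  have hmpN : ∀ e, e ∉ S → mp p q S e = q e := fun e he => by unfold mp; exact if_neg he
  have hconst : ∀ f, f ∉ S → ∀ e, a f (p e) = a f (lab e) := by
    intro f hf e
    refine z2' _ _ (hS (fun z => a f z = 0) ?_ e)
    intro e he
    have h1 := ha f e
    have hef : e ≠ f := by rintro rfl; exact hf he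
    rw [hmpS e he, if_neg hef] at h1
    rw [z2 _ _ h1]
  have claim1 : ∀ b ∈ S, ∀ k, Multiplicative.toAdd (χ k) = Multiplicative.toAdd (χ g0) →
      y b k ≠ 0 → ∃ e, e ∉ S ∧ y e k ≠ 0 ∧ a b (p e) + a b (lab e) ≠ 0 := by
    intro b hb k hk hyb
    by_contra hcon
    push Not at hcon
    have h1 := level_one x χ hχ p q lab y hy _ hmin k hk (a b)
    rw [Finset.sum_eq_single b] at h1
    · have h2 := ha b b
      rw [hmpS b hb, if_pos rfl] at h2
      rw [h2, mul_one] at h1
      exact hyb h1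
    · intro e _ he
      by_cases heS : e ∈ S
      · have h2 := ha b e
        rw [hmpS e heS, if_neg he] at h2
        rw [h2, mul_zero]
      · by_cases hye : y e k = 0
        · rw [hye, zero_mul]
        · rw [hcon e heS hye, mul_zero]
    · intro h; exact absurd (Finset.mem_univ _) h
  let A : Set (E × G) := {z | z.1 ∉ S ∧
    Multiplicative.toAdd (χ z.2) = Multiplicative.toAdd (χ g0) ∧ y z.1 z.2 ≠ 0}
  have hAfin : A.Finite := hfin.subset fun z hz => hz.2.2
  have hA : A.Nonempty := by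
    by_cases he0 : e0 ∈ S
    · obtain ⟨e, h1, h2, -⟩ := claim1 e0 he0 g0 rfl h0
      exact ⟨(e, g0), h1, rfl, h2⟩
    · exact ⟨(e0, g0), he0, rfl, h0⟩
  have hsucc : ∀ z : E × G, ∃ w : (E × G) × E, z ∈ A → (w.1 ∈ A ∧ w.2 ∈ S ∧
      a w.2 (p w.1.1) + a w.2 (lab w.1.1) ≠ 0 ∧ a z.1 (q w.2) + a z.1 (lab w.2) ≠ 0 ∧
      w.1.2 = z.2 * x (lab z.1) * (x (lab w.2))⁻¹) := by
    intro z
    by_cases hz : z ∈ A
    · obtain ⟨hf, hk, hyk⟩ := hz
      obtain ⟨f, k⟩ := z
      simp only at hf hk hyk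
      have h1 := level_two x χ hχ p q lab y hy _ hmin (a f) (hconst f hf) (k * x (lab f)) (by
        rw [map_mul, hχ, ← hk]; rfl)
      have hex : ∃ b ∈ S, (a f (lab b) + a f (q b)) * y b (k * x (lab f) * (x (lab b))⁻¹) ≠ 0 := by
        by_contra hcon
        push Not at hcon
        rw [Finset.sum_eq_single f] at h1
        · rw [mul_inv_cancel_right] at h1
          have h2 := ha f f
          rw [hmpN f hf, if_pos rfl, add_comm] at h2
          rw [h2, one_mul] at h1
          exact hyk h1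
        · intro e _ he
          by_cases heS : e ∈ S
          · exact hcon e heS
          · have h2 := ha f e
            rw [hmpN e heS, if_neg he, add_comm] at h2
            rw [h2, zero_mul]
        · intro h; exact absurd (Finset.mem_univ _) h
      obtain ⟨b, hb, hbn⟩ := hex
      have hb1 := left_ne_zero_of_mul hbn
      have hb2 := right_ne_zero_of_mul hbn
      have hdeg : Multiplicative.toAdd (χ (k * x (lab f) * (x (lab b))⁻¹)) =
          Multiplicative.toAdd (χ g0) := by
        rw [deg_inv x χ hχ, map_mul, hχ, ← hk]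
        simp
      obtain ⟨e1, g1, g2, g3⟩ := claim1 b hb _ hdeg hb2
      exact ⟨((e1, k * x (lab f) * (x (lab b))⁻¹), b), fun _ =>
        ⟨⟨g1, hdeg, g2⟩, hb, g3, by rwa [add_comm], rfl⟩⟩
    · exact ⟨(z, z.1), fun h => absurd h hz⟩
  choose w hw using hsucc
  obtain ⟨z0, hz0⟩ := hA
  let s : ℕ → E × G := fun t => (fun z => (w z).1)^[t] z0
  have hs1 : ∀ t, s (t + 1) = (w (s t)).1 := fun t => Function.iterate_succ_apply' _ _ _
  have hsA : ∀ t, s t ∈ A := by
    intro t
    induction t with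
    | zero => exact hz0
    | succ t ih => rw [hs1]; exact (hw (s t) ih).1
  have hrep : ∃ i j, i < j ∧ s i = s j := by
    have : Finite A := hAfin
    obtain ⟨i, j, hij, h⟩ := Finite.exists_ne_map_eq_of_infinite (fun t : ℕ => (⟨s t, hsA t⟩ : A))
    have h' : s i = s j := congrArg Subtype.val h
    rcases lt_or_gt_of_ne hij with h1 | h1
    · exact ⟨i, j, h1, h'⟩
    · exact ⟨j, i, h1, h'.symm⟩
  obtain ⟨i, j, hij, hsij⟩ := hrep
  have hper : ∀ t, s (i + (t + (j - i))) = s (i + t) := by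
    intro t
    induction t with
    | zero =>
      have : i + (0 + (j - i)) = j := by omega
      rw [this, ← hsij, add_zero]
    | succ t ih =>
      have e1 : i + (t + 1 + (j - i)) = i + (t + (j - i)) + 1 := by omega
      have e2 : i + (t + 1) = i + t + 1 := by omega
      rw [e1, e2, hs1, hs1, ih]
  refine ⟨j - i, fun t => (s (i + t)).1, fun t => (w (s (i + t))).2, fun t => (s (i + t)).2,
    by omega, fun t => ⟨⟨(hsA _).1, (hw _ (hsA _)).2.1, ?_, (hw _ (hsA _)).2.2.2.1⟩, ?_, ?_, ?_, ?_⟩⟩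
  · have h1 := (hw _ (hsA (i + t))).2.2.1
    have h2 : s (i + (t + 1)) = (w (s (i + t))).1 := by
      rw [← add_assoc]
      exact hs1 _
    simp only [h2]
    exact h1
  · simp only [hper]
  · simp only [hper]
  · simp only [hper]
  · have h2 : s (i + (t + 1)) = (w (s (i + t))).1 := by
      rw [← add_assoc]
      exact hs1 _
    simp only [h2]
    exact (hw _ (hsA (i + t))).2.2.2.2

end Pool.Agent.K9h82.LW
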